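import Mathlib
import Pool.Agent.HuaDom91.Basic

/-!
Closed pairs of subgroups of a Hua system, and the continuity lemma.
-/

set_option autoImplicit false

namespace Pool.Agent.HuaKey73

open Pool.Agent.HuaTop84 Pool.Agent.HuaVal Pool.Agent.HuaOne84 Pool.Agent.HuaDom91

variable {A : Type} [AddCommGroup A]

/-- A closed pair of subgroups: `y ∉ P` implies `y⁻¹ ∈ V` and vice versa, and each of the two
groups is generated by the inverses of the elements outside the other one. -/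
structure CP (H : HS A) (P V : AddSubgroup A) : Prop where
  inv_mem : ∀ y, y ∉ P → H.inv y ∈ V
  inv_mem' : ∀ y, y ∉ V → H.inv y ∈ P
  gen : P ≤ AddSubgroup.closure {y | H.inv y ∉ V}
  gen' : V ≤ AddSubgroup.closure {y | H.inv y ∉ P}

namespace CP

variable {H : HS A} {P V : AddSubgroup A}

theorem symm (h : CP H P V) : CP H V P := ⟨h.inv_mem', h.inv_mem, h.gen', h.gen⟩

theorem add_notMem {P : AddSubgroup A} {t p : A} (ht : t ∉ P) (hp : p ∈ P) : t + p ∉ P := by
  intro h0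
  apply ht
  have := P.sub_mem h0 hp
  rwa [add_sub_cancel_right] at this

theorem ne_zero {P : AddSubgroup A} {t : A} (ht : t ∉ P) : t ≠ 0 := fun h0 =>
  ht (h0 ▸ P.zero_mem)

/-- `U_t⁻¹ P ≤ V` for `t ∉ P`. -/
theorem shrink (h : CP H P V) {t x : A} (ht : t ∉ P) (hx : x ∈ P) : H.U (H.inv t) x ∈ V := by
  have ht0 : t ≠ 0 := ne_zero ht
  have hit : H.inv t ∈ V := h.inv_mem t ht
  have h1 : AddSubgroup.closure {y | H.inv y ∉ V} ≤ V.comap (H.U (H.inv t)) := by
    rw [AddSubgroup.closure_le]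
    intro y hy
    change H.U (H.inv t) y ∈ V
    have hy' : H.inv y + -H.inv t ∉ V := add_notMem hy (V.neg_mem hit)
    have hq : H.inv (H.inv y + -H.inv t) ∈ P := h.inv_mem' _ hy'
    have hq0 : H.inv y + -H.inv t ≠ 0 := ne_zero hy'
    set q := H.inv (H.inv y + -H.inv t) with hqdef
    have hq0' : q ≠ 0 := H.inv_ne _ hq0
    have haq : t + q ∉ P := add_notMem ht hq
    have h2 := H.inv_add t q ht0 hq0' (ne_zero haq)
    have h3 : H.inv t + H.inv q = H.inv y := by
      rw [hqdef, H.inv_inv]; abel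
    rw [h3, H.inv_inv] at h2
    have h4 : H.U (H.inv t) y = H.inv t - H.inv (t + q) := by
      rw [h2]; abel
    rw [h4]
    exact V.sub_mem hit (h.inv_mem _ haq)
  exact h1 (h.gen hx)

end CP

section LemmaC

variable {H : HS A} {P V : AddSubgroup A}

/-- The exact identity. -/
theorem exact_identity (H : HS A) (u x e : A) (hx : x ≠ 0) (he : H.inv x + e ≠ 0) :
    H.U (u + e) x = H.U u x - e - H.U u (x - H.inv (H.inv x + e)) +
      H.U (u + H.inv x + e) (x - H.inv (H.inv x + e)) := by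
  have h1 := U_shift H u he
  have h2 := U_shift H (u + e) (H.inv_ne x hx)
  rw [H.inv_inv] at h2
  have e1 : u + (H.inv x + e) = u + H.inv x + e := by abel
  have e2 : u + e + H.inv x = u + H.inv x + e := by abel
  rw [e1] at h1
  rw [e2] at h2
  have h3 : H.U (u + e) x = H.U (u + H.inv x + e) x - (u + e + (u + e) + H.inv x) := by
    rw [h2]; abel
  rw [h3, map_sub, map_sub, h1]
  abel

theorem U_sum' (H : HS A) {u x : A} (hu : u ≠ 0) (hx : x ≠ 0) (hf : u + H.inv x ≠ 0) (z : A) :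
    H.U (H.inv x) z = H.U (H.inv (H.inv u + x)) (H.U (H.inv u) (H.U (u + H.inv x) z)) := by
  have h1 := H.sum u (H.inv x) z hu (H.inv_ne x hx) hf
  rw [H.inv_inv] at h1
  rw [h1, H.U_inv_left u _ hu]
  have h2 : H.inv u + x ≠ 0 := by
    intro h0
    apply hf
    have h3 : x = -H.inv u := by
      rw [eq_neg_iff_add_eq_zero, add_comm]; exact h0
    rw [h3, H.inv_neg, H.inv_inv]
    abel
  rw [H.U_inv_left _ _ h2]

/-- The main computation: with `V' = U_x U_u V`, `S = U_x⁻¹ U_u⁻¹ P` and `e⁻¹ ∉ V'`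
one has `U_u⁻¹ U_{u+e} x ∉ V`. -/
theorem notMem_aux (h : CP H P V) {u x e : A} (hu : u ∉ P) (hx : x ∉ V)
    (he : H.U (H.inv u) (H.U (H.inv x) (H.inv e)) ∉ V) :
    e ∈ P ∧ e ≠ 0 ∧ H.U (H.inv u) (H.U (u + e) x) ∉ V := by
  have hu0 := CP.ne_zero hu
  have hx0 := CP.ne_zero hx
  have hiu : H.inv u ∈ V := h.inv_mem u hu
  have hix : H.inv x ∈ P := h.inv_mem' x hx
  have hiu0 := H.inv_ne u hu0
  have hix0 := H.inv_ne x hx0
  have hie0 : H.inv e ≠ 0 := by
    intro h0
    rw [h0, map_zero, map_zero] at he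
    exact he V.zero_mem
  have he0 : e ≠ 0 := by
    intro h0
    rw [h0, H.inv_zero] at hie0
    exact hie0 rfl
  -- e ∈ P
  have heV : H.inv e ∉ V := fun h0 => he (h.shrink hu (h.symm.shrink hx h0))
  have heP : e ∈ P := by
    have := h.inv_mem' _ heV
    rwa [H.inv_inv] at this
  refine ⟨heP, he0, ?_⟩
  -- (i), (ii)
  have hxV' : H.U (H.inv u) (H.U (H.inv x) x) ∈ V := by
    have h1 : H.U (H.inv x) x = H.inv x := by
      have := H.U_self (H.inv x)
      rwa [H.inv_inv] at this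
    rw [h1]
    exact h.shrink hu hix
  have hsum : H.U (H.inv u) (H.U (H.inv x) (H.inv e + x)) ∉ V := by
    rw [map_add, map_add]
    exact CP.add_notMem he hxV'
  have hsum0 : H.inv e + x ≠ 0 := by
    intro h0
    rw [h0, map_zero, map_zero] at hsum
    exact hsum V.zero_mem
  have hxe0 : H.inv x + e ≠ 0 := by
    intro h0
    apply hsum0
    have h3 : e = -H.inv x := by
      rw [eq_neg_iff_add_eq_zero, add_comm]; exact h0
    rw [h3, H.inv_neg, H.inv_inv]
    abel
  set η := x - H.inv (H.inv x + e) with hη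
  have hη1 : η = H.U x (H.inv (H.inv e + x)) := by
    have h1 := H.inv_add (H.inv x) e hix0 he0 hxe0
    rw [H.inv_inv] at h1
    rw [hη, h1, add_comm x (H.inv e)]
    abel
  have hηP : H.U u η ∈ P := by
    have h1 := h.inv_mem' _ hsum
    rw [H.inv_U _ _ hiu0, H.inv_U _ _ hix0, H.inv_inv, H.inv_inv, ← hη1] at h1
    exact h1
  have hηV : η ∈ V := by
    have h1 := h.shrink hu hηP
    rwa [H.U_inv_left u _ hu0] at h1
  -- f = u + x⁻¹
  have hf0 : u + H.inv x ≠ 0 := CP.ne_zero (CP.add_notMem hu hix)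
  have hux : H.inv u + x ∉ V := by
    rw [add_comm]; exact CP.add_notMem hx hiu
  have hif0 := H.inv_ne _ hf0
  have hif : H.U u (H.inv (u + H.inv x)) = u - H.inv (H.inv u + x) := by
    rw [H.inv_add u (H.inv x) hu0 hix0 hf0, H.inv_inv, map_sub, H.U_self, H.U_inv_right u _ hu0]
  have hW : ∀ z, H.U (H.inv u) (H.U (u + H.inv x) z) ∈ V →
      H.U (H.inv u) (H.U (H.inv x) z) ∈ V := by
    intro z hz
    rw [U_sum' H hu0 hx0 hf0 z]
    exact h.shrink hu (h.symm.shrink hux hz)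
  have heW : H.U (H.inv u) (H.U (u + H.inv x) (H.inv e)) ∉ V := fun h0 => he (hW _ h0)
  have hfW : H.U (H.inv u) (H.U (u + H.inv x) (H.inv (u + H.inv x))) ∈ V := by
    rw [H.U_self, map_add]
    refine V.add_mem ?_ (h.shrink hu hix)
    have := H.U_self (H.inv u)
    rw [H.inv_inv] at this
    rwa [this]
  have hsf : H.U (H.inv u) (H.U (u + H.inv x) (H.inv e + H.inv (u + H.inv x))) ∉ V := by
    rw [map_add, map_add]
    exact CP.add_notMem heW hfW
  have hsf0 : H.inv e + H.inv (u + H.inv x) ≠ 0 := by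
    intro h0
    rw [h0, map_zero, map_zero] at hsf
    exact hsf V.zero_mem
  have hfe0 : u + H.inv x + e ≠ 0 := by
    intro h0
    apply hsf0
    have h3 : e = -(u + H.inv x) := by
      rw [eq_neg_iff_add_eq_zero, add_comm]; exact h0
    rw [h3, H.inv_neg]
    abel
  have hfe : H.U u (H.inv (u + H.inv x + e)) ∉ P := by
    rw [H.inv_add (u + H.inv x) e hf0 he0 hfe0, map_sub, hif]
    have h1 := h.inv_mem' _ hsf
    rw [H.inv_U _ _ hiu0, H.inv_U _ _ hf0, H.inv_inv, add_comm (H.inv e)] at h1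
    have h2 : u - H.inv (H.inv u + x) -
        H.U u (H.U (H.inv (u + H.inv x)) (H.inv (H.inv (u + H.inv x) + H.inv e))) =
        u + -(H.inv (H.inv u + x) +
          H.U u (H.U (H.inv (u + H.inv x)) (H.inv (H.inv (u + H.inv x) + H.inv e)))) := by
      abel
    rw [h2]
    exact CP.add_notMem hu (P.neg_mem (P.add_mem (h.inv_mem' _ hux) h1))
  have hthird : H.U (H.inv u) (H.U (u + H.inv x + e) η) ∈ V := by
    have h1 := h.shrink hfe hηP
    rw [H.inv_U _ _ hu0, H.inv_inv, H.U_U, H.U_inv_left u _ hu0] at h1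
    exact h1
  -- conclusion
  rw [exact_identity H u x e hx0 hxe0, ← hη, map_add, map_sub, map_sub, H.U_inv_left u _ hu0,
    H.U_inv_left u _ hu0]
  have h5 : x - H.U (H.inv u) e - η + H.U (H.inv u) (H.U (u + H.inv x + e) η) =
      x + (-H.U (H.inv u) e - η + H.U (H.inv u) (H.U (u + H.inv x + e) η)) := by abel
  rw [h5]
  exact CP.add_notMem hx (V.add_mem (V.sub_mem (V.neg_mem (h.shrink hu heP)) hηV) hthird)

/-- Lemma C: `S ≤ U_{u+e} U_u⁻¹ P`. -/
theorem lemC (h : CP H P V) {u x e : A} (hu : u ∉ P) (hx : x ∉ V)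
    (he : H.U (H.inv u) (H.U (H.inv x) (H.inv e)) ∉ V) {p : A} (hp : p ∈ P) :
    H.U u (H.U (H.inv (u + e)) (H.U (H.inv x) (H.U (H.inv u) p))) ∈ P := by
  obtain ⟨heP, he0, hmain⟩ := notMem_aux h hu hx he
  have hu0 := CP.ne_zero hu
  have hx0 := CP.ne_zero hx
  have hiu : H.inv u ∈ V := h.inv_mem u hu
  have hiu0 := H.inv_ne u hu0
  have hue : u + e ∉ P := CP.add_notMem hu heP
  have hue0 := CP.ne_zero hue
  have heV : H.inv e ∉ V := fun h0 => he (h.shrink hu (h.symm.shrink hx h0))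
  -- (v)
  have h1 : H.U u (H.inv (u + e)) ∉ P := by
    rw [H.inv_add u e hu0 he0 hue0, map_sub, H.U_self, H.U_inv_right u _ hu0, sub_eq_add_neg]
    refine CP.add_notMem hu (P.neg_mem (h.inv_mem' _ ?_))
    rw [add_comm]
    exact CP.add_notMem heV hiu
  have h2 := h.shrink h1 hp
  rw [H.inv_U _ _ hu0, H.inv_inv, H.U_U] at h2
  set v := H.U (H.inv u) (H.U (u + e) (H.U (H.inv u) p)) with hv
  -- (vi)
  have h3 := h.symm.shrink hmain h2
  rw [H.inv_U _ _ hiu0, H.inv_U _ _ hue0, H.inv_inv, H.U_U, H.U_U, hv,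
    H.U_inv_right u _ hu0, H.U_inv_left (u + e) _ hue0] at h3
  exact h3

/-- The dual form of Lemma C. -/
theorem lemC_dual (h : CP H P V) {u x e : A} (hu : u ∉ P) (hx : x ∉ V)
    (he : H.U (H.inv u) (H.U (H.inv x) (H.inv e)) ∉ V) {v : A} (hv : v ∈ V) :
    H.U (H.inv u) (H.U (H.inv x) (H.U (H.inv (u + e)) (H.U u v))) ∈ V := by
  obtain ⟨heP, he0, -⟩ := notMem_aux h hu hx he
  have hu0 := CP.ne_zero hu
  have hx0 := CP.ne_zero hx
  have hiu0 := H.inv_ne u hu0
  have hix0 := H.inv_ne x hx0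
  have hue0 := CP.ne_zero (CP.add_notMem hu heP)
  have hiue0 := H.inv_ne _ hue0
  have h1 : AddSubgroup.closure {y | H.inv y ∉ P} ≤
      V.comap ((H.U (H.inv u)).comp ((H.U (H.inv x)).comp ((H.U (H.inv (u + e))).comp (H.U u)))) := by
    rw [AddSubgroup.closure_le]
    intro y hy
    change H.U (H.inv u) (H.U (H.inv x) (H.U (H.inv (u + e)) (H.U u y))) ∈ V
    by_contra hcon
    apply hy
    have h2 := h.inv_mem' _ hcon
    rw [H.inv_U _ _ hiu0, H.inv_U _ _ hix0, H.inv_U _ _ hiue0, H.inv_U _ _ hu0, H.inv_inv,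
      H.inv_inv, H.inv_inv] at h2
    have h3 := lemC h hu hx he h2
    rwa [H.U_inv_left u _ hu0, H.U_inv_left x _ hx0, H.U_inv_left (u + e) _ hue0,
      H.U_inv_right u _ hu0] at h3
  exact h1 (h.gen' hv)

/-- The other sign. -/
theorem lemC_dual' (h : CP H P V) {u x e : A} (hu : u ∉ P) (hx : x ∉ V)
    (he : H.U (H.inv u) (H.U (H.inv x) (H.inv e)) ∉ V) {v : A} (hv : v ∈ V) :
    H.U (H.inv u) (H.U (H.inv x) (H.U (H.inv u) (H.U (u + e) v))) ∈ V := by
  obtain ⟨heP, he0, -⟩ := notMem_aux h hu hx he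
  have hu0 := CP.ne_zero hu
  have hx0 := CP.ne_zero hx
  have hiu0 := H.inv_ne u hu0
  have hix0 := H.inv_ne x hx0
  have hiu : H.inv u ∈ V := h.inv_mem u hu
  have hue0 := CP.ne_zero (CP.add_notMem hu heP)
  have hie0 := H.inv_ne e he0
  -- `e' = -(u⁻¹ + e⁻¹)⁻¹`
  have h1 : H.U (H.inv u) (H.U (H.inv x) (H.inv u)) ∈ V :=
    h.shrink hu (h.symm.shrink hx hiu)
  have h2 : H.U (H.inv u) (H.U (H.inv x) (H.inv e + H.inv u)) ∉ V := by
    rw [map_add, map_add]
    exact CP.add_notMem he h1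
  have h20 : H.inv e + H.inv u ≠ 0 := by
    intro h0
    rw [h0, map_zero, map_zero] at h2
    exact h2 V.zero_mem
  set e' := -H.inv (H.inv e + H.inv u) with he'
  have h3 : H.inv e' = -(H.inv e + H.inv u) := by
    rw [he', H.inv_neg, H.inv_inv]
  have h4 : H.U (H.inv u) (H.U (H.inv x) (H.inv e')) ∉ V := by
    rw [h3, map_neg, map_neg]
    exact fun h0 => h2 (neg_mem_iff.mp h0)
  have h5 : u + e' = H.U u (H.inv (u + e)) := by
    rw [H.inv_add u e hu0 he0 hue0, map_sub, H.U_self, H.U_inv_right u _ hu0, he',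
      add_comm (H.inv e)]
    abel
  have h6 := lemC_dual h hu hx h4 hv
  rw [h5, H.inv_U _ _ hu0, H.inv_inv, H.U_U, H.U_inv_left u _ hu0] at h6
  exact h6

end LemmaC

end Pool.Agent.HuaKey73
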