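import Mathlib
import Pool.Agent.HuaKey73.LemC
import Pool.Agent.HuaPair25.Closed

/-!
The chain of closed pairs obtained from one pair, and the step `u → u + e`.
-/

set_option autoImplicit false

namespace Pool.Agent.HuaKey73

open Pool.Agent.HuaTop84 Pool.Agent.HuaVal Pool.Agent.HuaOne84 Pool.Agent.HuaDom91
  Pool.Agent.HuaPair25

variable {A : Type} [AddCommGroup A]

theorem gen_aux {H : HS A} {P V : AddSubgroup A} (h : P ≤ AddSubgroup.closure {y | H.inv y ∉ V})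
    {x : A} (hx : x ≠ 0) : P.comap (H.U x) ≤
      AddSubgroup.closure {y | H.inv y ∉ V.comap (H.U (H.inv x))} := by
  intro y hy
  have hy1 : H.U x y ∈ P := hy
  have h1 := h hy1
  have h2 : AddSubgroup.closure {y | H.inv y ∉ V} ≤
      (AddSubgroup.closure {y | H.inv y ∉ V.comap (H.U (H.inv x))}).comap (H.U (H.inv x)) := by
    rw [AddSubgroup.closure_le]
    intro w hw
    refine AddSubgroup.subset_closure ?_
    change H.U (H.inv x) (H.inv (H.U (H.inv x) w)) ∉ V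
    rw [H.inv_U _ _ (H.inv_ne x hx), H.inv_inv, H.U_inv_left x _ hx]
    exact hw
  have h3 : H.U (H.inv x) (H.U x y) ∈
      AddSubgroup.closure {y | H.inv y ∉ V.comap (H.U (H.inv x))} := h2 h1
  rwa [H.U_inv_left x _ hx] at h3

/-- The pair `(U_x⁻¹ P, U_x V)`. -/
theorem CP.comap {H : HS A} {P V : AddSubgroup A} (h : CP H P V) {x : A} (hx : x ≠ 0) :
    CP H (P.comap (H.U x)) (V.comap (H.U (H.inv x))) where
  inv_mem := fun y hy => by
    have h1 := h.inv_mem (H.U x y) hy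
    rw [H.inv_U _ _ hx] at h1
    exact h1
  inv_mem' := fun y hy => by
    have h1 := h.inv_mem' (H.U (H.inv x) y) hy
    rw [H.inv_U _ _ (H.inv_ne x hx), H.inv_inv] at h1
    exact h1
  gen := gen_aux h.gen hx
  gen' := by
    have h1 := gen_aux h.gen' (H.inv_ne x hx)
    rw [H.inv_inv] at h1
    exact h1

/-- `V_n = U_x^n V`. -/
def Vn (H : HS A) (V : AddSubgroup A) (x : A) : ℕ → AddSubgroup A
  | 0 => V
  | n + 1 => (Vn H V x n).comap (H.U (H.inv x))

/-- `P_n = U_x^{-n} P`. -/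
def Pn (H : HS A) (P : AddSubgroup A) (x : A) : ℕ → AddSubgroup A
  | 0 => P
  | n + 1 => (Pn H P x n).comap (H.U x)

/-- `x_n = U_x^n x`. -/
def xs (H : HS A) (x : A) : ℕ → A
  | 0 => x
  | n + 1 => H.U x (xs H x n)

section

variable {H : HS A} {P V : AddSubgroup A} {x : A}

theorem cp_n (h : CP H P V) (hx : x ≠ 0) (n : ℕ) : CP H (Pn H P x n) (Vn H V x n) := by
  induction n with
  | zero => exact h
  | succ n ih => exact ih.comap hx

theorem xs_ne (hx : x ≠ 0) (n : ℕ) : xs H x n ≠ 0 := by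
  induction n with
  | zero => exact hx
  | succ n ih =>
    intro h0
    apply ih
    have h1 : H.U (H.inv x) (H.U x (xs H x n)) = xs H x n := H.U_inv_left x _ hx
    change H.U x (xs H x n) = 0 at h0
    rw [h0, map_zero] at h1
    exact h1.symm

theorem xs_notMem (hxV : x ∉ V) (n : ℕ) : xs H x n ∉ Vn H V x n := by
  have hx : x ≠ 0 := CP.ne_zero hxV
  induction n with
  | zero => exact hxV
  | succ n ih =>
    intro h0
    apply ih
    change H.U (H.inv x) (H.U x (xs H x n)) ∈ Vn H V x n at h0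
    rwa [H.U_inv_left x _ hx] at h0

/-- `P ≤ V` if the unit is not in `P`. -/
theorem le_of_one (h : CP H P V) (h1 : H.one ∉ P) : P ≤ V := by
  intro p hp
  have h2 := h.shrink h1 hp
  rwa [H.inv_one, H.U_one] at h2

theorem Vn_succ (h : CP H P V) (h1 : H.one ∉ P) (hxV : x ∉ V) (n : ℕ) :
    Vn H V x n ≤ Vn H V x (n + 1) := by
  induction n with
  | zero =>
    intro v hv
    change H.U (H.inv x) v ∈ V
    exact le_of_one h h1 (h.symm.shrink hxV hv)
  | succ n ih => exact AddSubgroup.comap_mono ih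

theorem Vn_mono (h : CP H P V) (h1 : H.one ∉ P) (hxV : x ∉ V) : Monotone (Vn H V x) :=
  monotone_nat_of_le_succ (Vn_succ h h1 hxV)

theorem Pn_le (h : CP H P V) (h1 : H.one ∉ P) (hxV : x ∉ V) (n : ℕ) :
    Pn H P x n ≤ P := by
  have hx : x ≠ 0 := CP.ne_zero hxV
  have h2 : ∀ n, Pn H P x (n + 1) ≤ Pn H P x n := by
    intro n
    induction n with
    | zero =>
      intro y hy
      change H.U x y ∈ P at hy
      have h3 := h.symm.shrink hxV (le_of_one h h1 hy)
      rwa [H.U_inv_left x _ hx] at h3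
    | succ n ih => exact AddSubgroup.comap_mono ih
  induction n with
  | zero => exact le_rfl
  | succ n ih => exact (h2 n).trans ih

theorem mem_Vn_xs (hx : x ≠ 0) (k : ℕ) : ∀ (m : ℕ) (w : A),
    H.U (H.inv (xs H x k)) w ∈ Vn H V x m ↔ w ∈ Vn H V x (m + (2 * k + 1)) := by
  induction k with
  | zero => intro m w; exact Iff.rfl
  | succ k ih =>
    intro m w
    change H.U (H.inv (H.U x (xs H x k))) w ∈ _ ↔ _
    rw [H.inv_U _ _ hx, H.U_U]
    have h1 : H.U (H.inv x) (H.U (H.inv (xs H x k)) (H.U (H.inv x) w)) ∈ Vn H V x m ↔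
        H.U (H.inv (xs H x k)) (H.U (H.inv x) w) ∈ Vn H V x (m + 1) := Iff.rfl
    rw [h1, ih]
    have h2 : H.U (H.inv x) w ∈ Vn H V x (m + 1 + (2 * k + 1)) ↔
        w ∈ Vn H V x (m + 1 + (2 * k + 1) + 1) := Iff.rfl
    rw [h2]
    have h3 : m + 1 + (2 * k + 1) + 1 = m + (2 * (k + 1) + 1) := by ring
    rw [h3]

/-- The condition of Lemma C for the pair `(P_k, V_k)`. -/
theorem cond_aux (hx : x ≠ 0) {u e : A} (hu0 : u ≠ 0) {k m : ℕ}
    (hkm : ∀ v ∈ Vn H V x k, H.U u v ∈ Vn H V x m) (he : H.inv e ∉ Vn H V x (m + (2 * k + 1))) :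
    H.U (H.inv u) (H.U (H.inv (xs H x k)) (H.inv e)) ∉ Vn H V x k := by
  intro h0
  have h1 := hkm _ h0
  rw [H.U_inv_right u _ hu0, mem_Vn_xs hx] at h1
  exact he h1

/-- The step for `U_{u+e}⁻¹`. -/
theorem step_inv (h : CP H P V) (hxV : x ∉ V) {u e : A} {n k m : ℕ} (hu : u ∉ Pn H P x k)
    (hkm : ∀ v ∈ Vn H V x k, H.U u v ∈ Vn H V x m)
    (hnk : ∀ v ∈ Vn H V x n, H.U (H.inv u) v ∈ Vn H V x k)
    (he : H.inv e ∉ Vn H V x (m + (2 * k + 1))) :
    ∀ v ∈ Vn H V x n, H.U (H.inv (u + e)) v ∈ Vn H V x (m + (2 * k + 1)) := by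
  intro v hv
  have hx : x ≠ 0 := CP.ne_zero hxV
  have hu0 : u ≠ 0 := CP.ne_zero hu
  have h1 := lemC_dual (cp_n h hx k) hu (xs_notMem hxV k) (cond_aux hx hu0 hkm he) (hnk v hv)
  have h2 := hkm _ h1
  rw [H.U_inv_right u _ hu0, H.U_inv_right u _ hu0, mem_Vn_xs hx] at h2
  exact h2

/-- The step for `U_{u+e}`. -/
theorem step_dir (h : CP H P V) (hxV : x ∉ V) {u e : A} {k m q : ℕ} (hu : u ∉ Pn H P x k)
    (hkm : ∀ v ∈ Vn H V x k, H.U u v ∈ Vn H V x m)
    (hmq : ∀ v ∈ Vn H V x (m + (2 * k + 1)), H.U u v ∈ Vn H V x q)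
    (he : H.inv e ∉ Vn H V x (m + (2 * k + 1))) :
    ∀ v ∈ Vn H V x k, H.U (u + e) v ∈ Vn H V x q := by
  intro v hv
  have hx : x ≠ 0 := CP.ne_zero hxV
  have hu0 : u ≠ 0 := CP.ne_zero hu
  have h1 := lemC_dual' (cp_n h hx k) hu (xs_notMem hxV k) (cond_aux hx hu0 hkm he) hv
  have h2 := hkm _ h1
  rw [H.U_inv_right u _ hu0, mem_Vn_xs hx] at h2
  have h3 := hmq _ h2
  rw [H.U_inv_right u _ hu0] at h3
  exact h3

/-- The inverses of `u` and `u + e` differ by a small element. -/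
theorem diff_aux {u e : A} {n m : ℕ} (h : CP H P V) (h1 : H.one ∉ P) (hxV : x ∉ V) (hu : u ∉ P)
    (he : H.inv e ∉ Vn H V x m) (hue : u + e ∉ P)
    (hm : ∀ v ∈ Vn H V x n, H.U (H.inv u) v ∈ Vn H V x m) :
    H.inv (H.inv u - H.inv (u + e)) ∉ Vn H V x n := by
  have hu0 : u ≠ 0 := CP.ne_zero hu
  have he0 : e ≠ 0 := by
    intro h0
    apply he
    rw [h0, H.inv_zero]
    exact AddSubgroup.zero_mem _
  have h2 := H.inv_add u e hu0 he0 (CP.ne_zero hue)
  have h3 : H.inv u - H.inv (u + e) = H.U (H.inv u) (H.inv (H.inv u + H.inv e)) := by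
    rw [h2]; abel
  intro h4
  rw [h3, H.inv_U _ _ (H.inv_ne u hu0), H.inv_inv, H.inv_inv] at h4
  have h5 := hm _ h4
  rw [H.U_inv_left u _ hu0] at h5
  apply he
  have h6 : H.inv u ∈ Vn H V x m := Vn_mono h h1 hxV (Nat.zero_le m) (h.inv_mem u hu)
  have h7 := (Vn H V x m).sub_mem h5 h6
  rwa [add_sub_cancel_left] at h7

/-- Purity of the groups `V_n`. -/
theorem Vn_pure (hV : IsPure V) (n : ℕ) : IsPure (Vn H V x n) := by
  induction n with
  | zero => exact hV
  | succ n ih =>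
    intro m a hm ha
    change H.U (H.inv x) (m • a) ∈ Vn H V x n at ha
    rw [map_nsmul] at ha
    exact ih m _ hm ha

end

end Pool.Agent.HuaKey73
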