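import Mathlib
import Pool.Agent.HuaKey73.Seq
import Pool.Agent.HuaVal.Ultra

/-!
The perfect pair of the ultrapower.
-/

set_option autoImplicit false

open Filter

namespace Pool.Agent.HuaKey73

open Pool.Agent.HuaTop84 Pool.Agent.HuaVal Pool.Agent.HuaOne84 Pool.Agent.HuaDom91
  Pool.Agent.HuaPair25

variable {A : Type} [AddCommGroup A] {J : A → A → A}

/-- The ultrafilter. -/
noncomputable abbrev UF : Filter ℕ := (hyperfilter ℕ : Filter ℕ)

theorem dg_ne {e : A} (he : e ≠ 0) : dg e ≠ (0 : UP A) :=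
  fun h => he (dg_inj (h.trans dg_zero.symm))

/-- The data of the ultrapower. -/
noncomputable def HU (hJ : JSys J) {e : A} (he : e ≠ 0) : HS (UP A) :=
  toHS hJ.ultra (dg e) (dg_ne he)

section

variable (hJ : JSys J) {e : A} (he : e ≠ 0)

theorem HU_one : (HU hJ he).one = dg (toHS hJ e he).one := rfl

theorem HU_inv (g : ℕ → A) : (HU hJ he).inv (g : UP A) =
    ((fun i => (toHS hJ e he).inv (g i) : ℕ → A) : UP A) := rfl

theorem HU_U (f g : ℕ → A) : (HU hJ he).U (f : UP A) (g : UP A) =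
    ((fun i => (toHS hJ e he).U (f i) (g i) : ℕ → A) : UP A) := by
  change H (JU J) (dg e) (f : UP A) (g : UP A) = ((fun i => H J e (f i) (g i) : ℕ → A) : UP A)
  by_cases hf : (f : UP A) = 0
  · rw [hf, H_zero_left]
    have h1 : ∀ᶠ i in UF, f i = 0 := Germ.coe_eq.mp hf
    refine (Germ.coe_eq.mpr (h1.mono fun i hi => ?_) : ((fun _ => (0 : A) : ℕ → A) : UP A) = _)
    change (0 : A) = H J e (f i) (g i)
    rw [hi, H_zero_left]
  · rw [H_of_ne hf]
    have h1 := coe_ne_zero.mp hf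
    refine Germ.coe_eq.mpr (h1.mono fun i hi => ?_)
    change J (f i) (J e (g i)) = H J e (f i) (g i)
    rw [H_of_ne hi]

/-- The union of the internal groups `V_n`. -/
def Vinf (W : ℕ → AddSubgroup A) (hW : Monotone W) : AddSubgroup (UP A) where
  carrier := {g | ∃ n, g.LiftPred (· ∈ W n)}
  zero_mem' := ⟨0, Germ.liftPred_const (W 0).zero_mem⟩
  add_mem' := by
    rintro a b ⟨n, hn⟩ ⟨m, hm⟩
    revert hn hm
    refine Germ.inductionOn₂ a b fun f g hn hm => ?_
    refine ⟨max n m, ?_⟩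
    have hn' : ∀ᶠ i in UF, f i ∈ W n := hn
    have hm' : ∀ᶠ i in UF, g i ∈ W m := hm
    exact (hn'.and hm').mono fun i hi =>
      (W _).add_mem (hW (le_max_left n m) hi.1) (hW (le_max_right n m) hi.2)
  neg_mem' := by
    rintro a ⟨n, hn⟩
    revert hn
    refine Germ.inductionOn a fun f hn => ?_
    refine ⟨n, ?_⟩
    have hn' : ∀ᶠ i in UF, f i ∈ W n := hn
    exact hn'.mono fun i hi => (W n).neg_mem hi

theorem mem_Vinf {W : ℕ → AddSubgroup A} {hW : Monotone W} {g : ℕ → A} :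
    (g : UP A) ∈ Vinf W hW ↔ ∃ n, ∀ᶠ i in UF, g i ∈ W n := Iff.rfl

theorem notMem_Vinf {W : ℕ → AddSubgroup A} {hW : Monotone W} {g : ℕ → A} :
    (g : UP A) ∉ Vinf W hW ↔ ∀ n, ∀ᶠ i in UF, g i ∉ W n := by
  rw [mem_Vinf, not_exists]
  refine forall_congr' fun n => ?_
  exact Ultrafilter.eventually_not.symm

theorem Vinf_pure {W : ℕ → AddSubgroup A} {hW : Monotone W} (h : ∀ n, IsPure (W n)) :
    IsPure (Vinf W hW) := by
  intro m a hm ha
  revert ha
  refine Germ.inductionOn a fun f ha => ?_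
  obtain ⟨n, hn⟩ := ha
  have hn' : ∀ᶠ i in UF, m • f i ∈ W n := hn
  exact ⟨n, hn'.mono fun i hi => h n m _ hm hi⟩

/-- Along the ultrafilter, one can choose the index slowly. -/
theorem exists_slow {p : ℕ → ℕ → Prop} (hp : ∀ n, ∀ᶠ i in UF, p n i) :
    ∃ N : ℕ → ℕ, (∀ b, ∀ᶠ i in UF, b ≤ N i) ∧ ∀ᶠ i in UF, p (N i) i := by
  classical
  have hall : ∀ n, ∀ᶠ i in UF, ∀ m ≤ n, p m i := by
    intro n
    induction n with
    | zero =>
      refine (hp 0).mono fun i hi m hm => ?_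
      rw [Nat.le_zero.mp hm]
      exact hi
    | succ n ih =>
      refine (ih.and (hp (n + 1))).mono fun i hi m hm => ?_
      rcases Nat.lt_or_ge m (n + 1) with h | h
      · exact hi.1 m (Nat.lt_succ_iff.mp h)
      · rw [le_antisymm hm h]
        exact hi.2
  refine ⟨fun i => Nat.findGreatest (fun n => ∀ m ≤ n, p m i) i, ?_, ?_⟩
  · intro b
    have h1 : ∀ᶠ i in UF, b ≤ i := Nat.hyperfilter_le_atTop (eventually_ge_atTop b)
    exact (h1.and (hall b)).mono fun i hi => Nat.le_findGreatest hi.1 hi.2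
  · refine (hall 0).mono fun i hi => ?_
    have h2 : ∀ m ≤ Nat.findGreatest (fun n => ∀ m ≤ n, p m i) i, p m i :=
      Nat.findGreatest_spec (P := fun n => ∀ m ≤ n, p m i) (Nat.zero_le i) hi
    exact h2 _ le_rfl

end

section Main

variable (hJ : JSys J) {e : A} (he : e ≠ 0) {P V : AddSubgroup A}
  (h : CP (toHS hJ e he) P V) (h1 : (toHS hJ e he).one ∉ P) {x : A} (hx : x ∉ V)

/-- Sequences for which the Hua maps and their inverses are bounded. -/
def Good (H : HS A) (P V : AddSubgroup A) (x : A) (u : ℕ → A) : Prop :=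
  (∀ᶠ i in UF, u i ∉ P) ∧ ∀ n, ∃ m, ∀ᶠ i in UF,
    (∀ v ∈ Vn H V x n, H.U (u i) v ∈ Vn H V x m) ∧
    (∀ v ∈ Vn H V x n, H.U (H.inv (u i)) v ∈ Vn H V x m)

theorem good_one {H : HS A} {P V : AddSubgroup A} {x : A} (h1 : H.one ∉ P) :
    Good H P V x (fun _ => H.one) := by
  refine ⟨Eventually.of_forall fun _ => h1, fun n => ⟨n, Eventually.of_forall fun _ => ?_⟩⟩
  refine ⟨fun v hv => ?_, fun v hv => ?_⟩
  · rw [H.U_one]; exact hv
  · rw [H.inv_one, H.U_one]; exact hv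

/-- The step. -/
theorem good_step {H : HS A} {P V : AddSubgroup A} {x : A} (h : CP H P V) (h1 : H.one ∉ P)
    (hx : x ∉ V) {u ε : ℕ → A} (hu : Good H P V x u)
    (hε : ∀ n, ∀ᶠ i in UF, H.inv (ε i) ∉ Vn H V x n) :
    Good H P V x (fun i => u i + ε i) ∧
      ∀ n, ∀ᶠ i in UF, H.inv (H.inv (u i) - H.inv (u i + ε i)) ∉ Vn H V x n := by
  have hm := Vn_mono h h1 hx
  have hP : ∀ᶠ i in UF, u i + ε i ∉ P := by
    refine (hu.1.and (hε 0)).mono fun i hi => ?_
    have h2 : ε i ∈ P := by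
      have h3 := h.inv_mem' _ hi.2
      rwa [H.inv_inv] at h3
    exact CP.add_notMem hi.1 h2
  refine ⟨⟨hP, ?_⟩, ?_⟩
  · intro n
    obtain ⟨k, hk⟩ := hu.2 n
    obtain ⟨m, hm1⟩ := hu.2 (max n k)
    obtain ⟨q, hq⟩ := hu.2 (m + (2 * (max n k) + 1))
    refine ⟨max q (m + (2 * (max n k) + 1)), ?_⟩
    refine ((((hk.and hm1).and hq).and hu.1).and (hε (m + (2 * (max n k) + 1)))).mono
      fun i hi => ?_
    obtain ⟨⟨⟨⟨hi1, hi2⟩, hi3⟩, hi4⟩, hi5⟩ := hi
    have hi4' : u i ∉ Pn H P x (max n k) := fun h0 => hi4 (Pn_le h h1 hx _ h0)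
    refine ⟨fun v hv => ?_, fun v hv => ?_⟩
    · exact hm (le_max_left _ _) (step_dir h hx hi4' hi2.1 hi3.1 hi5 v
        (hm (le_max_left _ _) hv))
    · exact hm (le_max_right _ _) (step_inv h hx hi4' hi2.1
        (fun w hw => hm (le_max_right _ _) (hi1.2 w hw)) hi5 v hv)
  · intro n
    obtain ⟨m, hm1⟩ := hu.2 n
    refine (((hm1.and hu.1).and (hε m)).and hP).mono fun i hi => ?_
    obtain ⟨⟨⟨hi1, hi2⟩, hi3⟩, hi4⟩ := hi
    exact diff_aux h h1 hx hi2 hi3 hi4 hi1.2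

/-- The group generated by the inverses of the elements outside `V_∞`. -/
noncomputable def Zg : AddSubgroup (UP A) :=
  rho (HU hJ he) (Vinf (Vn (toHS hJ e he) V x) (Vn_mono h h1 hx))

theorem Z_step {z : UP A} (hz : z ∈ Zg hJ he h h1 hx) :
    (∀ u, Good (toHS hJ e he) P V x u → ∃ w, Good (toHS hJ e he) P V x w ∧
      (w : UP A) = (u : UP A) + z ∧
      (HU hJ he).inv (u : UP A) - (HU hJ he).inv (w : UP A) ∈ Zg hJ he h h1 hx) ∧
    (∀ u, Good (toHS hJ e he) P V x u → ∃ w, Good (toHS hJ e he) P V x w ∧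
      (w : UP A) = (u : UP A) + -z ∧
      (HU hJ he).inv (u : UP A) - (HU hJ he).inv (w : UP A) ∈ Zg hJ he h h1 hx) := by
  set H := toHS hJ e he with hH
  have base : ∀ g : ℕ → A, ((g : UP A) ∉ Vinf (Vn H V x) (Vn_mono h h1 hx)) →
      ∀ u, Good H P V x u → ∃ w, Good H P V x w ∧
      (w : UP A) = (u : UP A) + (HU hJ he).inv (g : UP A) ∧
      (HU hJ he).inv (u : UP A) - (HU hJ he).inv (w : UP A) ∈ Zg hJ he h h1 hx := by
    intro g hg u hu
    rw [notMem_Vinf] at hg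
    have hε : ∀ n, ∀ᶠ i in UF, H.inv (H.inv (g i)) ∉ Vn H V x n := by
      intro n
      refine (hg n).mono fun i hi => ?_
      rw [H.inv_inv]
      exact hi
    obtain ⟨h3, h4⟩ := good_step h h1 hx hu hε
    refine ⟨_, h3, rfl, ?_⟩
    have h5 : (((fun i => H.inv (H.inv (u i) - H.inv (u i + H.inv (g i)))) : ℕ → A) : UP A) ∉
        Vinf (Vn H V x) (Vn_mono h h1 hx) := by
      rw [notMem_Vinf]
      exact h4
    have h6 := mem_rho (H := HU hJ he) h5
    have h7 : (HU hJ he).inv (((fun i => H.inv (H.inv (u i) - H.inv (u i + H.inv (g i))))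
        : ℕ → A) : UP A) = (HU hJ he).inv (u : UP A) -
          (HU hJ he).inv (((fun i => u i + H.inv (g i)) : ℕ → A) : UP A) := by
      rw [HU_inv]
      have h8 : (fun i => H.inv (H.inv (H.inv (u i) - H.inv (u i + H.inv (g i))))) =
          fun i => H.inv (u i) - H.inv (u i + H.inv (g i)) := by
        funext i
        rw [H.inv_inv]
      rw [h8]
      rfl
    rw [h7] at h6
    exact h6
  unfold Zg rho at hz
  induction hz using AddSubgroup.closure_induction with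
  | mem z hz =>
    obtain ⟨y, hy, rfl⟩ := hz
    revert hy
    refine Germ.inductionOn y fun g hy => ?_
    refine ⟨base g hy, ?_⟩
    have h2 : -(HU hJ he).inv (g : UP A) = (HU hJ he).inv ((-g : ℕ → A) : UP A) := by
      rw [Germ.coe_neg, (HU hJ he).inv_neg]
    rw [h2]
    apply base
    rw [Germ.coe_neg]
    intro h3
    apply hy
    have h4 := AddSubgroup.neg_mem _ h3
    rwa [neg_neg] at h4
  | zero =>
    refine ⟨fun u hu => ⟨u, hu, by rw [add_zero], ?_⟩, fun u hu => ⟨u, hu, ?_, ?_⟩⟩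
    · rw [sub_self]; exact AddSubgroup.zero_mem _
    · rw [neg_zero, add_zero]
    · rw [sub_self]; exact AddSubgroup.zero_mem _
  | add z w _ _ hz hw =>
    refine ⟨fun u hu => ?_, fun u hu => ?_⟩
    · obtain ⟨u1, g1, e1, m1⟩ := hz.1 u hu
      obtain ⟨u2, g2, e2, m2⟩ := hw.1 u1 g1
      refine ⟨u2, g2, by rw [e2, e1, add_assoc], ?_⟩
      have h3 := AddSubgroup.add_mem _ m1 m2
      rwa [sub_add_sub_cancel] at h3
    · obtain ⟨u1, g1, e1, m1⟩ := hz.2 u hu
      obtain ⟨u2, g2, e2, m2⟩ := hw.2 u1 g1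
      refine ⟨u2, g2, by rw [e2, e1, neg_add, add_assoc], ?_⟩
      have h3 := AddSubgroup.add_mem _ m1 m2
      rwa [sub_add_sub_cancel] at h3
  | neg z _ hz =>
    refine ⟨hz.2, ?_⟩
    rw [neg_neg]
    exact hz.1

theorem Z_one : (HU hJ he).one ∉ Zg hJ he h h1 hx := by
  intro h2
  obtain ⟨w, hw, e1, -⟩ := (Z_step hJ he h h1 hx h2).2 _ (good_one h1)
  have e2 : (w : UP A) = 0 := by
    rw [e1]
    exact add_neg_cancel ((HU hJ he).one)
  have e3 : ∀ᶠ i in UF, w i = 0 := Germ.coe_eq.mp e2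
  obtain ⟨i, hi1, hi2⟩ := (hw.1.and e3).exists
  apply hi1
  rw [hi2]
  exact AddSubgroup.zero_mem _

/-- No nonzero element of `Z` has its inverse in `Z`. -/
theorem Z_inv {z : UP A} (hz : z ∈ Zg hJ he h h1 hx) (hz0 : z ≠ 0)
    (hz' : (HU hJ he).inv z ∈ Zg hJ he h h1 hx) : False := by
  have key : ∀ z ∈ Zg hJ he h h1 hx, (HU hJ he).one + z ≠ 0 ∧
      (HU hJ he).one - (HU hJ he).inv ((HU hJ he).one + z) ∈ Zg hJ he h h1 hx := by
    intro z hz
    obtain ⟨w, hw, e1, m1⟩ := (Z_step hJ he h h1 hx hz).1 _ (good_one h1)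
    have e2 : (w : UP A) = (HU hJ he).one + z := e1
    have e3 : (HU hJ he).inv (((fun _ => (toHS hJ e he).one) : ℕ → A) : UP A) =
        (HU hJ he).one := (HU hJ he).inv_one
    rw [e3, e2] at m1
    refine ⟨?_, m1⟩
    rw [← e2]
    intro h0
    have e3 : ∀ᶠ i in UF, w i = 0 := Germ.coe_eq.mp h0
    obtain ⟨i, hi1, hi2⟩ := (hw.1.and e3).exists
    apply hi1
    rw [hi2]
    exact AddSubgroup.zero_mem _
  obtain ⟨n1, m1⟩ := key z hz
  obtain ⟨-, m2⟩ := key _ hz'
  have h2 := (HU hJ he).inv_add _ z (HU hJ he).one_ne hz0 n1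
  rw [(HU hJ he).inv_one, (HU hJ he).U_one] at h2
  apply Z_one hJ he h h1 hx
  have h3 := AddSubgroup.add_mem _ m1 m2
  rw [h2] at h3
  have h4 : (HU hJ he).one - ((HU hJ he).one - (HU hJ he).inv ((HU hJ he).one +
      (HU hJ he).inv z)) + ((HU hJ he).one - (HU hJ he).inv ((HU hJ he).one +
      (HU hJ he).inv z)) = (HU hJ he).one := by abel
  rwa [h4] at h3

/-- Slowly growing powers. -/
theorem Z_slow {t : UP A} (ht : t ∈ Zg hJ he h h1 hx) :
    ∃ N : ℕ → ℕ, (∀ b, ∀ᶠ i in UF, b ≤ N i) ∧ ∀ ω : ℕ → ℕ, (∀ i, ω i ≤ N i) →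
      (∀ b, ∀ᶠ i in UF, b ≤ ω i) →
      (HU hJ he).U (((fun i => xs (toHS hJ e he) x (ω i)) : ℕ → A) : UP A) t ∈
        Zg hJ he h h1 hx := by
  set H := toHS hJ e he with hH
  have hx0 : x ≠ 0 := CP.ne_zero hx
  unfold Zg rho at ht
  induction ht using AddSubgroup.closure_induction with
  | mem t ht =>
    obtain ⟨y, hy, rfl⟩ := ht
    revert hy
    refine Germ.inductionOn y fun g hy => ?_
    rw [notMem_Vinf] at hy
    obtain ⟨N, hN, hN'⟩ := exists_slow (p := fun n i => g i ∉ Vn H V x (3 * n + 1))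
      (fun n => hy (3 * n + 1))
    refine ⟨N, hN, fun ω hω hω' => ?_⟩
    have hne : (((fun i => xs H x (ω i)) : ℕ → A) : UP A) ≠ 0 := by
      rw [coe_ne_zero]
      exact Eventually.of_forall fun i => xs_ne hx0 _
    have h2 : (HU hJ he).U (((fun i => xs H x (ω i)) : ℕ → A) : UP A)
        ((HU hJ he).inv (g : UP A)) = (HU hJ he).inv
          (((fun i => H.U (H.inv (xs H x (ω i))) (g i)) : ℕ → A) : UP A) := by
      have h3 := (HU hJ he).inv_U ((HU hJ he).inv (((fun i => xs H x (ω i)) : ℕ → A) : UP A))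
        (g : UP A) ((HU hJ he).inv_ne _ hne)
      rw [(HU hJ he).inv_inv, HU_inv, HU_U] at h3
      exact h3.symm
    rw [h2]
    apply mem_rho
    rw [notMem_Vinf]
    intro n
    refine ((hω' n).and hN').mono fun i hi => ?_
    rw [mem_Vn_xs hx0]
    intro h4
    apply hi.2
    refine Vn_mono h h1 hx ?_ h4
    have h5 := hω i
    omega
  | zero =>
    refine ⟨fun i => i, fun b => Nat.hyperfilter_le_atTop (eventually_ge_atTop b), ?_⟩
    intro ω _ _
    rw [map_zero]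
    exact AddSubgroup.zero_mem _
  | add s t _ _ hs ht =>
    obtain ⟨N, hN, hN'⟩ := hs
    obtain ⟨M, hM, hM'⟩ := ht
    refine ⟨fun i => min (N i) (M i), fun b => ?_, fun ω hω hω' => ?_⟩
    · exact ((hN b).and (hM b)).mono fun i hi => le_min hi.1 hi.2
    · rw [map_add]
      exact AddSubgroup.add_mem _ (hN' ω (fun i => (hω i).trans (min_le_left _ _)) hω')
        (hM' ω (fun i => (hω i).trans (min_le_right _ _)) hω')
  | neg t _ ht =>
    obtain ⟨N, hN, hN'⟩ := ht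
    refine ⟨N, hN, fun ω hω hω' => ?_⟩
    rw [map_neg]
    exact AddSubgroup.neg_mem _ (hN' ω hω hω')

/-- The closed pair of a group of the form `rho`. -/
theorem cp_rho {A : Type} [AddCommGroup A] (H : HS A) (W : AddSubgroup A) :
    CP H (rho H W) (rho H (rho H W)) where
  inv_mem := fun _ hy => mem_rho hy
  inv_mem' := fun y hy => by
    have h2 := mem_rho (H := H) hy
    rwa [rho_rho_rho] at h2
  gen := by
    have h2 : rho H W = rho H (rho H (rho H W)) := (rho_rho_rho W).symm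
    have h3 : rho H (rho H (rho H W)) ≤ AddSubgroup.closure {y | H.inv y ∉ rho H (rho H W)} := by
      apply rho_le
      intro v hv
      apply AddSubgroup.subset_closure
      change H.inv (H.inv v) ∉ _
      rw [H.inv_inv]
      exact hv
    rwa [rho_rho_rho] at h3
  gen' := by
    apply rho_le
    intro v hv
    apply AddSubgroup.subset_closure
    change H.inv (H.inv v) ∉ _
    rw [H.inv_inv]
    exact hv

/-- The pair `(Z, V')` is perfect. -/
theorem Z_perf {y : UP A} (hy : y ≠ 0) : y ∈ Zg hJ he h h1 hx ↔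
    (HU hJ he).inv y ∉ rho (HU hJ he) (Zg hJ he h h1 hx) := by
  have hcp : CP (HU hJ he) (Zg hJ he h h1 hx) (rho (HU hJ he) (Zg hJ he h h1 hx)) :=
    cp_rho _ _
  constructor
  · intro hyZ hw
    set w := (HU hJ he).inv y with hwdef
    have hw0 : w ≠ 0 := (HU hJ he).inv_ne _ hy
    have hwy : (HU hJ he).inv w = y := (HU hJ he).inv_inv y
    obtain ⟨N, hN, hN'⟩ := Z_slow hJ he h h1 hx hyZ
    have h2 := hN' N (fun _ => le_rfl) hN
    set z : UP A := (((fun i => xs (toHS hJ e he) x (N i)) : ℕ → A) : UP A) with hzdef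
    have hx0 : x ≠ 0 := CP.ne_zero hx
    have hz0 : z ≠ 0 := by
      rw [hzdef, coe_ne_zero]
      exact Eventually.of_forall fun i => xs_ne hx0 _
    have hzV : z ∉ Vinf (Vn (toHS hJ e he) V x) (Vn_mono h h1 hx) := by
      rw [hzdef, notMem_Vinf]
      intro n
      refine (hN n).mono fun i hi h3 => ?_
      exact xs_notMem hx (N i) (Vn_mono h h1 hx hi h3)
    have hzV' : z ∉ rho (HU hJ he) (Zg hJ he h h1 hx) := by
      intro h3
      exact hzV (rho_symm (H := HU hJ he) le_rfl h3)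
    have h3 := hcp.symm.shrink hzV' hw
    refine Z_inv hJ he h h1 hx h3 ?_ ?_
    · intro h4
      apply hw0
      have h5 := (HU hJ he).U_inv_right z w hz0
      rw [h4, map_zero] at h5
      exact h5.symm
    · rw [(HU hJ he).inv_U _ _ ((HU hJ he).inv_ne z hz0), (HU hJ he).inv_inv, hwy]
      exact h2
  · intro hw
    have h2 := hcp.inv_mem' _ hw
    rwa [(HU hJ he).inv_inv] at h2

theorem Z_ne_bot : Zg hJ he h h1 hx ≠ ⊥ := by
  intro h0
  have hx0 : x ≠ 0 := CP.ne_zero hx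
  have hzV : (((fun i => xs (toHS hJ e he) x i) : ℕ → A) : UP A) ∉
      Vinf (Vn (toHS hJ e he) V x) (Vn_mono h h1 hx) := by
    rw [notMem_Vinf]
    intro n
    have h2 : ∀ᶠ i in UF, n ≤ i := Nat.hyperfilter_le_atTop (eventually_ge_atTop n)
    refine h2.mono fun i hi h3 => ?_
    exact xs_notMem hx i (Vn_mono h h1 hx hi h3)
  have h3 := mem_rho (H := HU hJ he) hzV
  have h4 : (HU hJ he).inv (((fun i => xs (toHS hJ e he) x i) : ℕ → A) : UP A) ∈
      Zg hJ he h h1 hx := h3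
  rw [h0, AddSubgroup.mem_bot] at h4
  refine (HU hJ he).inv_ne _ ?_ h4
  rw [coe_ne_zero]
  exact Eventually.of_forall fun i => xs_ne hx0 _

end Main

end Pool.Agent.HuaKey73
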