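import Mathlib
import Pool.Agent.HuaKey73.Germ
import Pool.Agent.HuaDom91.Main

/-!
Torsion-free Hua systems come from quadratic Jordan division rings.
-/

set_option autoImplicit false

open Filter

namespace Pool.Agent.HuaKey73

open Pool.Agent.HuaTop84 Pool.Agent.HuaVal Pool.Agent.HuaOne84 Pool.Agent.HuaDom91
  Pool.Agent.HuaPair25

variable {A : Type} [AddCommGroup A] {J : A → A → A}

theorem ultra_tf (hA : ∀ (n : ℕ) (a : A), n ≠ 0 → n • a = 0 → a = 0) :
    ∀ (n : ℕ) (a : UP A), n ≠ 0 → n • a = 0 → a = 0 := by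
  intro n a hn
  refine Germ.inductionOn a fun f ha => ?_
  have h1 : ∀ᶠ i in (hyperfilter ℕ : Filter ℕ), n • f i = 0 := Germ.coe_eq.mp ha
  exact Germ.coe_eq.mpr (h1.mono fun i hi => hA n _ hn hi)

/-- The third differences vanish if there is a closed pair of pure subgroups. -/
theorem T3_of_pair (hA : ∀ (n : ℕ) (a : A), n ≠ 0 → n • a = 0 → a = 0) (hJ : JSys J) {e : A}
    (he : e ≠ 0) {P V : AddSubgroup A} (h : CP (toHS hJ e he) P V)
    (h1 : (toHS hJ e he).one ∉ P) {x : A} (hx : x ∉ V) (hV : IsPure V) :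
    ∀ e', e' ≠ 0 → ∀ x y z c, T3 J e' x y z c = 0 := by
  intro e' he' a b c d
  have hAU := ultra_tf hA
  let _ : Module ℚ (UP A) := ratModule hAU (fun n a hn => (HU hJ he).divisible hAU n a hn)
  have S : (HU hJ he).Scal ℚ := (HU hJ he).ratScal hAU
  have S' : ∀ (n : ℕ) (a : UP A), n ≠ 0 → n • (HU hJ he).inv (n • a) = (HU hJ he).inv a :=
    fun n a hn => (HU hJ he).smul_inv_smul hAU n a hn
  have hZp : IsPure (Zg hJ he h h1 hx) := rho_pure S' hAU (Vinf_pure (Vn_pure hV))
  have hVp : IsPure (rho (HU hJ he) (Zg hJ he h h1 hx)) := rho_pure S' hAU hZp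
  have hperf : Perf (HU hJ he) (subOfPure (Zg hJ he h h1 hx) hZp)
      (subOfPure (rho (HU hJ he) (Zg hJ he h h1 hx)) hVp) := by
    refine ⟨?_, ?_, ?_⟩
    · intro h2
      apply Z_ne_bot hJ he h h1 hx
      rw [eq_bot_iff]
      intro y hy
      have h3 : y ∈ subOfPure (Zg hJ he h h1 hx) hZp := hy
      rw [h2, Submodule.mem_bot] at h3
      rw [h3]
      exact AddSubgroup.zero_mem _
    · intro h2
      apply Z_one hJ he h h1 hx
      have h3 : (HU hJ he).one ∈ subOfPure (Zg hJ he h h1 hx) hZp := h2 ▸ Submodule.mem_top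
      exact h3
    · intro y hy
      exact Z_perf hJ he h h1 hx hy
  have h2 := T3_zero (K := ℚ) (by norm_num) hJ.ultra (dg_ne he) S hperf (dg e') (dg_ne he')
    (dg a) (dg b) (dg c) (dg d)
  rw [dg_T3] at h2
  exact dg_inj (h2.trans dg_zero.symm)

/-- Change of the unit. -/
theorem CP.iso {hJ : JSys J} {e : A} {he : e ≠ 0} {P V : AddSubgroup A}
    (h : CP (toHS hJ e he) P V) {a : A} (ha : a ≠ 0) :
    CP (toHS hJ a ha) P (V.comap ((toHS hJ e he).U ((toHS hJ e he).inv a))) := by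
  set H := toHS hJ e he with hH
  have hinv : ∀ y, (toHS hJ a ha).inv y = H.U a (H.inv y) := by
    intro y
    change J a y = Pool.Agent.HuaVal.H J e a (J e y)
    rw [H_of_ne ha, hJ.inv e _ he]
  refine ⟨fun y hy => ?_, fun y hy => ?_, ?_, ?_⟩
  · change H.U (H.inv a) ((toHS hJ a ha).inv y) ∈ V
    rw [hinv, H.U_inv_left a _ ha]
    exact h.inv_mem y hy
  · have h1 := h.inv_mem' _ hy
    rw [H.inv_U _ _ (H.inv_ne a ha), H.inv_inv, ← hinv] at h1
    exact h1
  · have h1 : {y | (toHS hJ a ha).inv y ∉ V.comap (H.U (H.inv a))} = {y | H.inv y ∉ V} := by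
      ext y
      change H.U (H.inv a) ((toHS hJ a ha).inv y) ∉ V ↔ _
      rw [hinv, H.U_inv_left a _ ha]
      exact Iff.rfl
    rw [h1]
    exact h.gen
  · intro y hy
    have h1 : H.U (H.inv a) y ∈ AddSubgroup.closure {y | H.inv y ∉ P} := h.gen' hy
    have h2 : AddSubgroup.closure {y | H.inv y ∉ P} ≤
        (AddSubgroup.closure {y | (toHS hJ a ha).inv y ∉ P}).comap (H.U a) := by
      rw [AddSubgroup.closure_le]
      intro w hw
      refine AddSubgroup.subset_closure ?_
      change (toHS hJ a ha).inv (H.U a w) ∉ P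
      rw [hinv, H.inv_U _ _ ha, H.U_inv_right a _ ha]
      exact hw
    have h3 : H.U a (H.U (H.inv a) y) ∈
        AddSubgroup.closure {y | (toHS hJ a ha).inv y ∉ P} := h2 h1
    rwa [H.U_inv_right a _ ha] at h3

/-- **Torsion-free Hua systems come from quadratic Jordan division rings.** -/
theorem torsion_free_jordan (A : Type) [AddCommGroup A] [Nontrivial A]
    (hA : ∀ (n : ℕ) (a : A), n ≠ 0 → n • a = 0 → a = 0)
    (j : A → Option A → Option A) (hj : IsHua j) : FromJordan j := by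
  obtain ⟨J, hJ, hjJ⟩ := exists_J hj
  obtain ⟨e, he⟩ := exists_ne (0 : A)
  by_contra hn
  obtain ⟨P, R, hP, hxR, hPp, hRp, e1, e2⟩ := exists_closed_pair A hA j hJ hjJ he he hn
  obtain ⟨a, ha⟩ : ∃ a, a ∉ P := by
    by_contra hno
    apply hP
    rw [eq_top_iff]
    intro y _
    by_contra hy
    exact hno ⟨y, hy⟩
  have ha0 : a ≠ 0 := CP.ne_zero ha
  have hcp : CP (toHS hJ e he) P R := by
    have h1 := cp_rho (toHS hJ e he) R
    rw [← e1, ← e2] at h1
    exact h1
  have hcp' := hcp.iso ha0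
  have hx' : (toHS hJ e he).U a e ∉ R.comap ((toHS hJ e he).U ((toHS hJ e he).inv a)) := by
    intro h1
    apply hxR
    change (toHS hJ e he).U ((toHS hJ e he).inv a) ((toHS hJ e he).U a e) ∈ R at h1
    rwa [(toHS hJ e he).U_inv_left a _ ha0] at h1
  have hR' : IsPure (R.comap ((toHS hJ e he).U ((toHS hJ e he).inv a))) := by
    intro n b hn' hb
    change (toHS hJ e he).U ((toHS hJ e he).inv a) (n • b) ∈ R at hb
    rw [map_nsmul] at hb
    exact hRp n _ hn' hb
  have hT := T3_of_pair hA hJ ha0 hcp' ha hx' hR'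
  have h2 : ∀ a : A, a + a = 0 → a = 0 := by
    intro a ha
    apply hA 2 a (by norm_num)
    rw [two_nsmul]; exact ha
  have h3 : ∀ a : A, a + a + a = 0 → a = 0 := by
    intro a ha
    apply hA 3 a (by norm_num)
    rw [← ha]
    abel
  exact hn (jordan_of_T3 h2 h3 j hJ hjJ hT he)

end Pool.Agent.HuaKey73
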